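import Pool.Agent.Q62.HB.Fin

/-!
# Bernoulli Anderson model: purely singular spectrum as the vanishing of the limit of an explicit decreasing sequence

`Δ_ω = -Δ + ω` on `ℤ^d`, `d ≥ 1`, `ω_j` iid with any law `ν` on `[-b, b]` which is not a point mass; for Q1
`ν` is the fair law on `{-1, 1}` and `b = 1`. Let `A_ω = (Δ_ω + b) / (4 d + 2 b)` and let

  `m_{k,N}(ω) = (N choose k) ⟨δ_0, A_ω^k (1 - A_ω)^{N-k} δ_0⟩`, `0 ≤ k ≤ N`,

a polynomial in the finitely many variables `ω_x`, `|x| ≤ N` (`∑_k m_{k,N} = 1`, `m_{k,N} ≥ 0`), and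

  `a_N = E ∑_{k=0}^N (m_{k,N}(ω) / (N + 1))^{1/2}`.

For the fair law on two points `a_N` is an average over finitely many sign patterns. Then `a_N` decreases, and

**the spectrum of `Δ_ω` is almost surely purely singular if and only if `a_N → 0`.**

So Q1 for the dimension `d` is equivalent to a statement on an explicit decreasing sequence of
numbers which are computed in finite volumes, without resolvents near the real axis and without an infinite
volume limit at fixed energy resolution: purely singular spectrum holds if and only if for every `ε > 0` one finite computation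
shows `a_N < ε`, and any absolutely continuous component gives a positive lower bound for all `a_N`.
-/

set_option autoImplicit false

open MeasureTheory Filter Topology

namespace Pool.Agent.Results.MP_d0f69c_mp.BernsteinCriterion

/-- The Hilbert space `ℓ²(ℤ^d)`. -/
def L2 (d : ℕ) : Type := lp (fun _ : Fin d → ℤ => ℂ) 2

/-- The `ℓ²` norm. -/
noncomputable instance instNorm (d : ℕ) : NormedAddCommGroup (L2 d) :=
  @lp.normedAddCommGroup (Fin d → ℤ) (fun _ => ℂ) 2 _ _

/-- The `ℓ²` inner product. -/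
noncomputable instance instInner (d : ℕ) : InnerProductSpace ℂ (L2 d) :=
  @lp.instInnerProductSpace (Fin d → ℤ) ℂ _ (fun _ => ℂ) _ _

/-- The underlying function of a vector of `ℓ²(ℤ^d)`. -/
def coord {d : ℕ} (u : L2 d) : (Fin d → ℤ) → ℂ := (show lp (fun _ : Fin d → ℤ => ℂ) 2 from u)

/-- Bounded linear operators on a complex inner product space. -/
abbrev Op (E : Type) [NormedAddCommGroup E] [InnerProductSpace ℂ E] : Type := E →L[ℂ] E

/-- the operator of the problem, `(Δ_ω u)(j) = -∑_{|n|=1} (u(j+n) - u(j)) + ω_j u(j)` (the unit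
vectors `n` are `± e_i`) -/
noncomputable def act {d : ℕ} (ω : (Fin d → ℤ) → ℝ) (u : (Fin d → ℤ) → ℂ) (j : Fin d → ℤ) : ℂ :=
  -(∑ i : Fin d, ((u (j + Pi.single i 1) - u j) + (u (j - Pi.single i 1) - u j))) + (ω j : ℂ) * u j

/-- The bounded operator `H` on `ℓ²(ℤ^d)` is `Δ_ω`. -/
def IsAnderson {d : ℕ} (ω : (Fin d → ℤ) → ℝ) (H : Op (L2 d)) : Prop :=
  ∀ u : L2 d, coord (H u) = act ω (coord u)

/-- `(H - z)⁻¹` -/
noncomputable def res {E : Type} [NormedAddCommGroup E] [InnerProductSpace ℂ E] (H : Op E) (z : ℂ) :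
    Op E :=
  Ring.inverse (H - z • (1 : Op E))

/-- `μ` is the spectral measure of `ψ`: a finite measure with Borel transform
`⟨ψ, (H - z)⁻¹ ψ⟩` off the real line. -/
def IsSpectralMeasure {E : Type} [NormedAddCommGroup E] [InnerProductSpace ℂ E]
    (H : Op E) (ψ : E) (μ : Measure ℝ) : Prop :=
  IsFiniteMeasure μ ∧ ∀ z : ℂ, z.im ≠ 0 →
    ∫ x, ((x : ℂ) - z)⁻¹ ∂μ = inner ℂ ψ (res H z ψ)

/-- the spectrum of `Δ_ω` is purely singular: all spectral measures are singular -/
def PurelySingular {d : ℕ} (ω : (Fin d → ℤ) → ℝ) : Prop :=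
  ∀ H : Op (L2 d), IsAnderson ω H → ∀ (ψ : L2 d) (μ : Measure ℝ), IsSpectralMeasure H ψ μ →
    μ ⟂ₘ volume

/-- the law of iid variables with law `ν` on `ℤ^d` -/
noncomputable def iid (d : ℕ) (ν : Measure ℝ) : Measure ((Fin d → ℤ) → ℝ) :=
  Measure.infinitePi fun _ => ν

/-- `A_ω u = (Δ_ω u + b u) / (4 d + 2 b)` on real functions on `ℤ^d` -/
noncomputable def A {d : ℕ} (b : ℝ) (ω : (Fin d → ℤ) → ℝ) (u : (Fin d → ℤ) → ℝ)
    (x : Fin d → ℤ) : ℝ :=
  (-(∑ i : Fin d, ((u (x + Pi.single i 1) - u x) + (u (x - Pi.single i 1) - u x))) +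
    ω x * u x + b * u x) / (4 * d + 2 * b)

/-- `m_{k,N}(ω)`, the value at the origin of `(N choose k) A_ω^k (1 - A_ω)^{N-k} δ_0` -/
noncomputable def moment {d : ℕ} (b : ℝ) (N k : ℕ) (ω : (Fin d → ℤ) → ℝ) : ℝ :=
  (N.choose k : ℝ) * ((A b ω)^[k] ((fun u x => u x - A b ω u x)^[N - k] (Pi.single 0 1))) 0

/-- `∑_{k ≤ N} (m_{k,N}(ω) / (N + 1))^{1/2}` -/
noncomputable def content {d : ℕ} (b : ℝ) (N : ℕ) (ω : (Fin d → ℤ) → ℝ) : ℝ :=
  ∑ k ∈ Finset.range (N + 1), Real.sqrt (moment b N k ω / (N + 1))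

/-- Let `d ≥ 1`, `b > 0` and let `ν` be a law on `[-b, b]` which is not a point mass (for Q1: `b = 1` and
the fair law on `{-1, 1}`). The function `content b N` depends only on the potential in the cube of
radius `N`, it is between `0` and `1` almost surely, its mean `a_N` decreases in `N`, and the spectrum of `Δ_ω`
is almost surely purely singular if and only if `a_N` tends to zero. -/
theorem result (d : ℕ) (hd : 1 ≤ d) (b : ℝ) (hb : 0 < b) (ν : Measure ℝ) [IsProbabilityMeasure ν]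
    (hνb : ∀ᵐ v ∂ν, |v| ≤ b) (hν : ∀ r : ℝ, ν {r} ≠ 1) :
    (∀ (N : ℕ) (ω ω' : (Fin d → ℤ) → ℝ), (∀ x : Fin d → ℤ, (∀ i, |x i| ≤ (N : ℤ)) → ω x = ω' x) →
      content b N ω = content b N ω') ∧
    (∀ᵐ ω ∂(iid d ν), ∀ N, 0 ≤ content b N ω ∧ content b N ω ≤ 1) ∧
    (Antitone fun N => ∫ ω, content b N ω ∂(iid d ν)) ∧
    ((∀ᵐ ω ∂(iid d ν), PurelySingular ω) ↔
      Tendsto (fun N => ∫ ω, content b N ω ∂(iid d ν)) atTop (𝓝 0)) := by
  refine ⟨fun N ω ω' h => Pool.Agent.Q62.HB.content_congr h, ?_,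
    Pool.Agent.Q62.HB.mean_anti hb hνb, ?_⟩
  · filter_upwards [Pool.Agent.Q62.HB.ae_bdd hνb] with ω hω N
    exact ⟨Pool.Agent.Q62.HB.content_nonneg b N ω, Pool.Agent.Q62.HB.content_le_one hb hω N⟩
  · have h := Pool.Agent.Q62.HB.pure_iff (d := d) hd hb hνb hν
    refine Iff.trans (eventually_congr ?_) h
    refine Eventually.of_forall fun ω => ?_
    constructor
    · intro h1 H hH φ μ hμ1 hμ2
      exact h1 H (fun u => funext fun j => hH u j) φ μ ⟨hμ1, hμ2⟩
    · intro h1 H hH φ μ hμ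
      exact h1 H (fun u j => congrFun (hH u) j) φ μ hμ.1 hμ.2

end Pool.Agent.Results.MP_d0f69c_mp.BernsteinCriterion
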