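import Pool.Agent.Q62.FV.Fin

/-!
# Bernoulli Anderson model, all dimensions: a finite-volume criterion for purely singular spectrum

`Δ_ω = -Δ + ω` on `ℤ^d`, `ω` fair independent signs. For an energy `E` and a length `l` consider the event
that all solutions of `Δ_ω u = (E + iε) u` in the cube of radius `10 l` around the origin decay by the factor
`(10 l)^{-(14 d + 19)}` on the core, the cube of radius `l`:
`|u(w)| ≤ (10 l)^{-(14 d + 19)} sup |u|` for `|w| ≤ l` (this event depends on finitely many signs).

Let `Metallic d` be the set of the energies at which, **at all sufficiently large scales `l`, this fails with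
probability larger than `p_d = 1 / (12 · 161^{2d})`**. Then almost surely the spectrum is purely singular
outside `Metallic d`: all spectral measures are singular on all Borel sets which meet `Metallic d` in a null set.

So Q1 for the dimension `d` follows if for almost every energy `E` there are infinitely many scales at
which the solutions decay polynomially with a probability which is only larger than the constant
`1 - p_d < 1`; and conversely, on an absolutely continuous component, at almost all energies, the cubes of all large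
sizes are delocalized in this sense with a probability bounded below.

For single-site laws with a bounded density criteria of this kind (with localization as the conclusion) are the
bootstrap multiscale analysis of Germinet and Klein; it needs a Wegner estimate, which is not known for the
Bernoulli model. Here the resonant energies are removed instead: the energies resonant at some scale `≥ l`
have measure `O(l^{-2})`, so almost every energy is removed for finitely many initial scales `l` only.
The starting result `EdgeSparseAC` is the case of the band edges, with an initial estimate of high probability.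
-/

set_option autoImplicit false

open MeasureTheory Filter Topology

namespace Pool.Agent.Results.MP_d0f69c_mp.FiniteVolumeCriterion

/-- The Hilbert space `ℓ²(ℤᵈ)`. -/
def L2 (d : ℕ) : Type := lp (fun _ : Fin d → ℤ => ℂ) 2

/-- The `ℓ²` norm. -/
noncomputable instance instNorm (d : ℕ) : NormedAddCommGroup (L2 d) :=
  @lp.normedAddCommGroup (Fin d → ℤ) (fun _ => ℂ) 2 _ _

/-- The `ℓ²` inner product. -/
noncomputable instance instInner (d : ℕ) : InnerProductSpace ℂ (L2 d) :=
  @lp.instInnerProductSpace (Fin d → ℤ) ℂ _ (fun _ => ℂ) _ _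

/-- The underlying function of a vector of `ℓ²(ℤᵈ)`. -/
def coord {d : ℕ} (u : L2 d) : (Fin d → ℤ) → ℂ := (show lp (fun _ : Fin d → ℤ => ℂ) 2 from u)

/-- Bounded linear operators on a complex inner product space. -/
abbrev Op (E : Type) [NormedAddCommGroup E] [InnerProductSpace ℂ E] : Type := E →L[ℂ] E

/-- `-(discrete Laplacian) + ω` on functions (`true` codes `+1`, `false` codes `-1`). -/
noncomputable def act {d : ℕ} (ω : (Fin d → ℤ) → Bool) (u : (Fin d → ℤ) → ℂ)
    (j : Fin d → ℤ) : ℂ :=
  -(∑ i : Fin d, ((u (j + Pi.single i 1) - u j) + (u (j - Pi.single i 1) - u j)))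
    + (if ω j then (1 : ℂ) else -1) * u j

/-- The bounded operator `H` on `ℓ²(ℤᵈ)` acts as `-(discrete Laplacian) + ω`. -/
def IsAnderson {d : ℕ} (ω : (Fin d → ℤ) → Bool) (H : Op (L2 d)) : Prop :=
  ∀ u : L2 d, coord (H u) = act ω (coord u)

/-- `(H - z)⁻¹` -/
noncomputable def res {E : Type} [NormedAddCommGroup E] [InnerProductSpace ℂ E] (H : Op E) (z : ℂ) :
    Op E :=
  Ring.inverse (H - z • (1 : Op E))

/-- `μ` is the spectral measure of `ψ`: a finite measure with Borel transform
`⟨ψ, (H - z)⁻¹ ψ⟩` off the real line. -/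
def IsSpectralMeasure {E : Type} [NormedAddCommGroup E] [InnerProductSpace ℂ E]
    (H : Op E) (ψ : E) (μ : Measure ℝ) : Prop :=
  IsFiniteMeasure μ ∧ ∀ z : ℂ, z.im ≠ 0 →
    ∫ x, ((x : ℂ) - z)⁻¹ ∂μ = inner ℂ ψ (res H z ψ)

/-- The law of a fair `±1` potential on `ℤᵈ`. -/
noncomputable def coin (d : ℕ) : Measure ((Fin d → ℤ) → Bool) :=
  Measure.infinitePi (fun _ => (PMF.uniformOfFintype Bool).toMeasure)

/-- `x` is in the cube of radius `n` around the origin -/
def InCube {d : ℕ} (n : ℕ) (x : Fin d → ℤ) : Prop := ∀ i, |x i| ≤ n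

/-- all solutions of `Δ_ω u = (E + iε) u` in the cube of radius `10 l` around the origin, for all real `ε`,
satisfy `|u(w)| ≤ (10 l)^{-(14 d + 19)} sup |u|` for all `w` in the cube of radius `l` -/
def Decay {d : ℕ} (ω : (Fin d → ℤ) → Bool) (E : ℝ) (l : ℕ) : Prop :=
  ∀ (ε : ℝ) (u : (Fin d → ℤ) → ℂ) (S : ℝ),
    (∀ x, InCube (10 * l) x → act ω u x = ((E : ℂ) + ε * Complex.I) * u x) →
    (∀ x, InCube (10 * l + 1) x → ‖u x‖ ≤ S) →
    ∀ w, InCube l w → ‖u w‖ ≤ (((10 * l : ℕ) : ℝ) ^ (14 * d + 19))⁻¹ * S

/-- the energies at which, at all large scales, the solutions do not decay with a probability larger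
than `1 / (12 * 161 ^ (2 d))` -/
def Metallic (d : ℕ) : Set ℝ :=
  {E | ∀ᶠ l : ℕ in atTop, (12 * 161 ^ (2 * d) : ℝ)⁻¹ <
    (coin d).real {ω : (Fin d → ℤ) → Bool | ¬ Decay ω E l}}

theorem inCube_iff {d : ℕ} (n : ℕ) (x : Fin d → ℤ) :
    InCube n x ↔ x ∈ Pool.Agent.H12R2.And.Q (0 : Fin d → ℤ) n := by
  rw [Pool.Agent.H12R2.And.mem_Q]
  simp only [InCube, Pi.zero_apply, sub_zero]

theorem decay_iff {d : ℕ} (ω : (Fin d → ℤ) → Bool) (E : ℝ) (l : ℕ) :
    Decay ω E l ↔ Pool.Agent.Q62.FV.Core ω E l ((((10 * l : ℕ) : ℝ) ^ (14 * d + 19))⁻¹) 0 := by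
  unfold Decay Pool.Agent.Q62.FV.Core
  simp only [inCube_iff]
  exact Iff.rfl

theorem metallic_compl {d : ℕ} (E : ℝ) :
    E ∈ (Metallic d)ᶜ ↔ ∃ᶠ l : ℕ in atTop, E ∈ Pool.Agent.Q62.FV.Crit d l := by
  unfold Metallic Pool.Agent.Q62.FV.Crit Pool.Agent.Q62.FV.pd
  simp only [decay_iff, Set.mem_compl_iff, Set.mem_ofPred_eq, Filter.not_eventually, not_lt]
  exact Iff.rfl

/-- Let `d ≥ 1`. The set `Metallic d` of energies is a Borel set, and for almost every fair `±1` potential
`ω` the spectral measures of all vectors for `Δ_ω` are singular on every Borel set of energies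
which meets `Metallic d` in a null set. In particular, if `Metallic d` is a null set then the spectrum is
almost surely purely singular. -/
theorem result (d : ℕ) (hd : 1 ≤ d) :
    MeasurableSet (Metallic d) ∧
    ∀ᵐ ω ∂(coin d), ∀ H : Op (L2 d), IsAnderson ω H →
      ∀ (ψ : L2 d) (μ : Measure ℝ), IsSpectralMeasure H ψ μ →
        ∀ B : Set ℝ, MeasurableSet B → volume (B ∩ Metallic d) = 0 →
          (μ.restrict B) ⟂ₘ volume := by
  have hM : MeasurableSet (Metallic d) := by
    rw [← MeasurableSet.compl_iff]
    have e : (Metallic d)ᶜ = ⋂ n : ℕ, ⋃ l ∈ {l : ℕ | n ≤ l}, Pool.Agent.Q62.FV.Crit d l := by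
      ext E
      rw [metallic_compl, Filter.frequently_atTop]
      simp
    rw [e]
    exact MeasurableSet.iInter fun n => MeasurableSet.biUnion (Set.to_countable _)
      fun l _ => Pool.Agent.Q62.FV.meas_Crit l
  refine ⟨hM, ?_⟩
  have h := Pool.Agent.Q62.FV.criterion hd hM.compl (by
    filter_upwards [ae_restrict_mem hM.compl] with E hE
    exact (metallic_compl E).1 hE)
  filter_upwards [h] with ω hω H hH ψ μ hμ B hB hB0
  have h1 := hω H (fun u j => congrFun (hH u) j) ψ μ hμ.1 hμ.2
  rw [← Measure.restrict_inter_add_sdiff B hM]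
  refine Measure.MutuallySingular.add_left ?_ ?_
  · refine ⟨(B ∩ Metallic d)ᶜ, (hB.inter hM).compl, ?_, ?_⟩
    · rw [Measure.restrict_apply (hB.inter hM).compl, Set.compl_inter_self, measure_empty]
    · rwa [compl_compl]
  · refine h1.mono ?_ le_rfl
    exact Measure.restrict_mono (fun E hE => hE.2) le_rfl

end Pool.Agent.Results.MP_d0f69c_mp.FiniteVolumeCriterion
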