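import Pool.Agent.Q62.HB.Law

/-!
# Anderson model: the mean absolutely continuous content is upper semicontinuous in the single site law, and the laws with purely singular spectrum form a `G_δ`

`Δ_ω = -Δ + ω` on `ℤ^d`, `d ≥ 1`, `ω_j` iid with a law `ν` on `[-b, b]` (for Q1, the fair law on
`{-1, 1}`, `b = 1`). Let `μ_ω` be the spectral measure of `δ_0` and

  `C(ν) = E_ν ∫ (dμ_ω / dE)^{1/2} dE`

the mean of the integral of the square root of its Lebesgue density. Then

1. `C` is upper semicontinuous on the compact space of the laws on `[-b, b]` with the weak topology;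
2. for `ν` which is not a point mass, `C(ν) = 0` if and only if the spectrum of `Δ_ω` is almost surely purely
   singular;
3. the laws `ν` on `[-b, b]`, not point masses, for which the spectrum is almost surely purely singular are a
   `G_δ` set of laws;
4. for every such family `ν_λ`, the law of `λ v`, `0 < λ ≤ 1`, the set of the disorder strengths `λ` with almost
   surely purely singular spectrum is a `G_δ`.

So if Q1 holds for the Bernoulli law then `C(ν_j) → 0` for all sequences of laws which converge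
weakly to it, and a.c. spectrum which does not fade away along a sequence of laws survives in the weak
limit.

Proof. `C(ν)`, suitably normalised, is the limit of the decreasing sequence of the means of the Bernstein
contents (`Pool.Agent.Q62.HB.hc_lim`), which depend on finitely many variables and are continuous in `ν`.
-/

set_option autoImplicit false

open MeasureTheory Filter Topology

namespace Pool.Agent.Results.MP_d0f69c_mp.LawSemicontinuity

/-- The Hilbert space `ℓ²(ℤ^d)`. -/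
def L2 (d : ℕ) : Type := lp (fun _ : Fin d → ℤ => ℂ) 2

/-- The `ℓ²` norm. -/
noncomputable instance instNorm (d : ℕ) : NormedAddCommGroup (L2 d) :=
  @lp.normedAddCommGroup (Fin d → ℤ) (fun _ => ℂ) 2 _ _

/-- The `ℓ²` inner product. -/
noncomputable instance instInner (d : ℕ) : InnerProductSpace ℂ (L2 d) :=
  @lp.instInnerProductSpace (Fin d → ℤ) ℂ _ (fun _ => ℂ) _ _

/-- The underlying function of a vector of `ℓ²(ℤ^d)`. -/
def coord {d : ℕ} (u : L2 d) : (Fin d → ℤ) → ℂ := (show lp (fun _ : Fin d → ℤ => ℂ) 2 from u)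

/-- the vector `δ_0` -/
noncomputable def delta (d : ℕ) : L2 d :=
  (show lp (fun _ : Fin d → ℤ => ℂ) 2 from lp.single 2 0 (1 : ℂ))

/-- Bounded linear operators on a complex inner product space. -/
abbrev Op (E : Type) [NormedAddCommGroup E] [InnerProductSpace ℂ E] : Type := E →L[ℂ] E

/-- the operator of the problem, `(Δ_ω u)(j) = -∑_{|n|=1} (u(j+n) - u(j)) + ω_j u(j)` (the unit
vectors `n` are `± e_i`) -/
noncomputable def act {d : ℕ} (ω : (Fin d → ℤ) → ℝ) (u : (Fin d → ℤ) → ℂ) (j : Fin d → ℤ) : ℂ :=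
  -(∑ i : Fin d, ((u (j + Pi.single i 1) - u j) + (u (j - Pi.single i 1) - u j))) + (ω j : ℂ) * u j

/-- The bounded operator `H` on `ℓ²(ℤ^d)` is `Δ_ω`. -/
def IsAnderson {d : ℕ} (ω : (Fin d → ℤ) → ℝ) (H : Op (L2 d)) : Prop :=
  ∀ u : L2 d, coord (H u) = act ω (coord u)

/-- `(H - z)⁻¹` -/
noncomputable def res {E : Type} [NormedAddCommGroup E] [InnerProductSpace ℂ E] (H : Op E) (z : ℂ) :
    Op E :=
  Ring.inverse (H - z • (1 : Op E))

/-- `μ` is the spectral measure of `ψ`: a finite measure with Borel transform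
`⟨ψ, (H - z)⁻¹ ψ⟩` off the real line. -/
def IsSpectralMeasure {E : Type} [NormedAddCommGroup E] [InnerProductSpace ℂ E]
    (H : Op E) (ψ : E) (μ : Measure ℝ) : Prop :=
  IsFiniteMeasure μ ∧ ∀ z : ℂ, z.im ≠ 0 →
    ∫ x, ((x : ℂ) - z)⁻¹ ∂μ = inner ℂ ψ (res H z ψ)

/-- the spectrum of `Δ_ω` is purely singular: all spectral measures are singular -/
def PurelySingular {d : ℕ} (ω : (Fin d → ℤ) → ℝ) : Prop :=
  ∀ H : Op (L2 d), IsAnderson ω H → ∀ (ψ : L2 d) (μ : Measure ℝ), IsSpectralMeasure H ψ μ →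
    μ ⟂ₘ volume

/-- the law of iid variables with law `ν` on `ℤ^d` -/
noncomputable def iid (d : ℕ) (ν : Measure ℝ) : Measure ((Fin d → ℤ) → ℝ) :=
  Measure.infinitePi fun _ => ν

/-- `∫ (dμ / dE)^{1/2} dE`, the integral of the square root of the Lebesgue density of the absolutely
continuous part of `μ` -/
noncomputable def acContent (μ : Measure ℝ) : ℝ := ∫ E, Real.sqrt ((μ.rnDeriv volume E).toReal)

/-- a law on `[-b, b]` as a law on the line -/
noncomputable def onLine {b : ℝ} (ν : ProbabilityMeasure (Set.Icc (-b) b)) : Measure ℝ :=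
  (ν : Measure (Set.Icc (-b) b)).map Subtype.val

/-- the law is not a point mass -/
def Random {b : ℝ} (ν : ProbabilityMeasure (Set.Icc (-b) b)) : Prop := ∀ r : ℝ, onLine ν {r} ≠ 1

/-- the mean `C(ν)` for spectral measures `μ ω` -/
noncomputable def C (d : ℕ) {b : ℝ} (μ : ((Fin d → ℤ) → ℝ) → Measure ℝ)
    (ν : ProbabilityMeasure (Set.Icc (-b) b)) : ℝ :=
  ∫ ω, acContent (μ ω) ∂(iid d (onLine ν))

theorem pure_iff {d : ℕ} (ω : (Fin d → ℤ) → ℝ) : PurelySingular ω ↔ Pool.Agent.Q62.HB.Pure ω := by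
  constructor
  · intro h1 H hH φ μ hμ1 hμ2
    exact h1 H (fun u => funext fun j => hH u j) φ μ ⟨hμ1, hμ2⟩
  · intro h1 H hH φ μ hμ
    exact h1 H (fun u j => congrFun (hH u) j) φ μ hμ.1 hμ.2

theorem ae_iff' {d : ℕ} {ν : Measure ℝ} :
    (∀ᵐ ω ∂(iid d ν), PurelySingular ω) ↔
      ∀ᵐ ω ∂(Measure.infinitePi fun _ : Fin d → ℤ => ν), Pool.Agent.Q62.HB.Pure ω :=
  eventually_congr (Eventually.of_forall fun ω => pure_iff ω)

/-- Let `d ≥ 1`, `b > 0`. There are measures `μ ω`, the spectral measures of `δ_0` for `Δ_ω` if `|ω| ≤ b`, such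
that for `C(ν) = E_ν ∫ (dμ_ω / dE)^{1/2} dE`:
0. the mean exists, for all laws `ν` on `[-b, b]`;
1. `C` is upper semicontinuous in `ν`, in the weak topology;
2. if `ν` is not a point mass then `C(ν) = 0` if and only if the spectrum is a.s. purely singular;
3. the set of laws on `[-b, b]`, not point masses, with a.s. purely singular spectrum is a `G_δ`;
4. if `ν` is not a point mass then the set of disorder strengths `0 < l ≤ 1` such that for iid potentials with
   the law of `l v` the spectrum is a.s. purely singular is a `G_δ`. -/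
theorem result (d : ℕ) (hd : 1 ≤ d) (b : ℝ) (hb : 0 < b) :
    ∃ μ : ((Fin d → ℤ) → ℝ) → Measure ℝ,
      (∀ ω : (Fin d → ℤ) → ℝ, (∀ x, |ω x| ≤ b) → ∀ H : Op (L2 d), IsAnderson ω H →
        IsSpectralMeasure H (delta d) (μ ω)) ∧
      (∀ ν : ProbabilityMeasure (Set.Icc (-b) b),
        Integrable (fun ω => acContent (μ ω)) (iid d (onLine ν))) ∧
      UpperSemicontinuous (fun ν : ProbabilityMeasure (Set.Icc (-b) b) => C d μ ν) ∧
      (∀ ν : ProbabilityMeasure (Set.Icc (-b) b), Random ν →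
        (C d μ ν = 0 ↔ ∀ᵐ ω ∂(iid d (onLine ν)), PurelySingular ω)) ∧
      IsGδ {ν : ProbabilityMeasure (Set.Icc (-b) b) |
        Random ν ∧ ∀ᵐ ω ∂(iid d (onLine ν)), PurelySingular ω} ∧
      ∀ ν : ProbabilityMeasure (Set.Icc (-b) b), Random ν →
        IsGδ {l : Set.Icc (0 : ℝ) 1 | 0 < (l : ℝ) ∧
          ∀ᵐ ω ∂(iid d ((onLine ν).map fun v => (l : ℝ) * v)), PurelySingular ω} := by
  have hgd := Pool.Agent.Q62.HB.MC_gdelta (d := d) hb
  refine ⟨fun ω => Pool.Agent.TH980.IM.spm (Pool.Agent.TH980.IM.HV_sa b ω)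
    (Pool.Agent.TH980.IM.ee 0), fun ω hω H hH => ?_, fun ν => ?_,
    Pool.Agent.Q62.HB.MC_usc hb, fun ν hν => ?_, ?_, fun ν hν => ?_⟩
  · have h1 : H = Pool.Agent.TH980.IM.HV b ω := by
      refine ContinuousLinearMap.ext fun u => ?_
      have h2 := hH u
      have h3 := Pool.Agent.Q62.HB.isA_HV hω u
      apply Subtype.ext
      funext j
      exact (congrFun h2 j).trans (h3 j).symm
    subst h1
    exact ⟨inferInstance, fun z hz => Pool.Agent.TH980.IM.BT_spm
      (Pool.Agent.TH980.IM.HV_sa b ω) (Pool.Agent.TH980.IM.ee 0) hz⟩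
  · exact Pool.Agent.Q62.HB.acc_int (ν := Pool.Agent.Q62.HB.toR ν) hb (Pool.Agent.Q62.HB.toR_bdd ν)
  · rw [ae_iff']
    exact Pool.Agent.Q62.HB.MC_zero_iff hd hb ν hν
  · have e : {ν : ProbabilityMeasure (Set.Icc (-b) b) |
        Random ν ∧ ∀ᵐ ω ∂(iid d (onLine ν)), PurelySingular ω} =
        {ν | ∀ r : ℝ, Pool.Agent.Q62.HB.toR ν {r} ≠ 1} ∩ {ν | Pool.Agent.Q62.HB.MC d b ν = 0} := by
      ext ν
      constructor
      · rintro ⟨h1, h2⟩
        rw [ae_iff'] at h2
        exact ⟨h1, (Pool.Agent.Q62.HB.MC_zero_iff hd hb ν h1).2 h2⟩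
      · rintro ⟨h1, h2⟩
        refine ⟨h1, ?_⟩
        rw [ae_iff']
        exact (Pool.Agent.Q62.HB.MC_zero_iff hd hb ν h1).1 h2
    rw [e]
    exact (Pool.Agent.Q62.HB.open_np.isGδ).inter hgd
  · have e : {l : Set.Icc (0 : ℝ) 1 | 0 < (l : ℝ) ∧
        ∀ᵐ ω ∂(iid d ((onLine ν).map fun v => (l : ℝ) * v)), PurelySingular ω} =
        {l : Set.Icc (0 : ℝ) 1 | 0 < (l : ℝ)} ∩ Pool.Agent.Q62.HB.scl ν ⁻¹' {ν | Pool.Agent.Q62.HB.MC d b ν = 0} := by
      ext l
      constructor
      · rintro ⟨h1, h2⟩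
        refine ⟨h1, ?_⟩
        rw [ae_iff'] at h2
        have h3 := Pool.Agent.Q62.HB.MC_zero_iff hd hb (Pool.Agent.Q62.HB.scl ν l)
          (Pool.Agent.Q62.HB.np_scl hν h1)
        rw [Pool.Agent.Q62.HB.toR_scl] at h3
        exact h3.2 h2
      · rintro ⟨h1, h2⟩
        refine ⟨h1, ?_⟩
        rw [ae_iff']
        have h3 := Pool.Agent.Q62.HB.MC_zero_iff hd hb (Pool.Agent.Q62.HB.scl ν l)
          (Pool.Agent.Q62.HB.np_scl hν h1)
        rw [Pool.Agent.Q62.HB.toR_scl] at h3
        exact h3.1 h2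
    rw [e]
    refine (IsOpen.isGδ ?_).inter ?_
    · exact isOpen_lt continuous_const continuous_subtype_val
    · exact hgd.preimage (Pool.Agent.Q62.HB.scl_cont ν)

end Pool.Agent.Results.MP_d0f69c_mp.LawSemicontinuity
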