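import Pool.Agent.TH980.IM.Fin2

/-!
# Bernoulli Anderson model: every fixed vector almost surely sees the whole absolutely continuous spectrum

`Δ_ω = -Δ + ω` on `ℓ²(ℤ^d)`, `ω_j` iid with any law of bounded support which is not a point mass, for
instance `P(ω_j = ±1) = 1/2` (the model of Q1).

1. There is a Borel set `S` of energies such that for every nonzero vector `u` of `ℓ²(ℤ^d)` (no decay is
   assumed), almost surely: the spectral measures of all vectors are singular outside `S`, and the spectral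
   measure of `u` is not singular on any Borel set which meets `S` in positive measure.
2. So Q1 is decided by any single vector, and localised in energy: if for some nonzero `u` and some Borel set
   `B` the spectral measure of `u` is singular on `B` with positive probability, then almost surely
   the spectral measures of all vectors are singular on `B`.

The starting result `FiniteSupport` of this problem concerns finitely supported vectors. For vectors `u`
with infinite support the moments `⟨δ_y, Δ_ω^n u⟩`, `y` far away, depend on infinitely many values of the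
potential.
-/

set_option autoImplicit false

open MeasureTheory Filter Topology

namespace Pool.Agent.Results.MP_d0f69c_mp.OneVector

/-- The Hilbert space `ℓ²(ℤ^d)`. -/
def L2 (d : ℕ) : Type := lp (fun _ : Fin d → ℤ => ℂ) 2

/-- The `ℓ²` norm. -/
noncomputable instance instNorm (d : ℕ) : NormedAddCommGroup (L2 d) :=
  @lp.normedAddCommGroup (Fin d → ℤ) (fun _ => ℂ) 2 _ _

/-- The `ℓ²` inner product. -/
noncomputable instance instInner (d : ℕ) : InnerProductSpace ℂ (L2 d) :=
  @lp.instInnerProductSpace (Fin d → ℤ) ℂ _ (fun _ => ℂ) _ _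

/-- The underlying function of a vector of `ℓ²(ℤ^d)`. -/
def coord {d : ℕ} (u : L2 d) : (Fin d → ℤ) → ℂ := (show lp (fun _ : Fin d → ℤ => ℂ) 2 from u)

/-- Bounded linear operators on a complex inner product space. -/
abbrev Op (E : Type) [NormedAddCommGroup E] [InnerProductSpace ℂ E] : Type := E →L[ℂ] E

/-- the operator of the problem, `(Δ_ω u)(j) = -∑_{|n|=1} (u(j+n) - u(j)) + ω_j u(j)` (the unit
vectors `n` are `± e_i`) -/
noncomputable def act {d : ℕ} (ω : (Fin d → ℤ) → ℝ) (u : (Fin d → ℤ) → ℂ) (j : Fin d → ℤ) : ℂ :=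
  -(∑ i : Fin d, ((u (j + Pi.single i 1) - u j) + (u (j - Pi.single i 1) - u j))) + (ω j : ℂ) * u j

/-- The bounded operator `H` on `ℓ²(ℤ^d)` is `Δ_ω`. -/
def IsAnderson {d : ℕ} (ω : (Fin d → ℤ) → ℝ) (H : Op (L2 d)) : Prop :=
  ∀ u : L2 d, coord (H u) = act ω (coord u)

/-- `(H - z)⁻¹` -/
noncomputable def res {E : Type} [NormedAddCommGroup E] [InnerProductSpace ℂ E] (H : Op E) (z : ℂ) :
    Op E :=
  Ring.inverse (H - z • (1 : Op E))

/-- `μ` is the spectral measure of `ψ`: a finite measure with Borel transform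
`⟨ψ, (H - z)⁻¹ ψ⟩` off the real line. -/
def IsSpectralMeasure {E : Type} [NormedAddCommGroup E] [InnerProductSpace ℂ E]
    (H : Op E) (ψ : E) (μ : Measure ℝ) : Prop :=
  IsFiniteMeasure μ ∧ ∀ z : ℂ, z.im ≠ 0 →
    ∫ x, ((x : ℂ) - z)⁻¹ ∂μ = inner ℂ ψ (res H z ψ)

/-- the law of iid variables with law `ν` on `ℤ^d` -/
noncomputable def iid (d : ℕ) (ν : Measure ℝ) : Measure ((Fin d → ℤ) → ℝ) :=
  Measure.infinitePi fun _ => ν

/-- every vector has a spectral measure, and the spectral measures of all vectors are singular on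
`B` if `B ∩ S` is Lebesgue null -/
def SingularOff {d : ℕ} (H : Op (L2 d)) (S : Set ℝ) : Prop :=
  (∀ φ : L2 d, ∃ μ : Measure ℝ, IsSpectralMeasure H φ μ) ∧
  ∀ B : Set ℝ, MeasurableSet B → volume (B ∩ S) = 0 → ∀ (φ : L2 d) (μ : Measure ℝ),
    IsSpectralMeasure H φ μ → (μ.restrict B) ⟂ₘ volume

/-- the spectral measure of `u` is not singular on the Borel set `B` if `B ∩ S` is not Lebesgue
null -/
def SeesAll {d : ℕ} (H : Op (L2 d)) (S : Set ℝ) (u : L2 d) : Prop :=
  ∀ B : Set ℝ, MeasurableSet B → volume (B ∩ S) ≠ 0 → ∀ μ : Measure ℝ,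
    IsSpectralMeasure H u μ → ¬ (μ.restrict B) ⟂ₘ volume

/-- the spectral measure of `u` for `Δ_ω` is singular on `B` -/
def SingularOn {d : ℕ} (ω : (Fin d → ℤ) → ℝ) (B : Set ℝ) (u : L2 d) : Prop :=
  ∀ H : Op (L2 d), IsAnderson ω H → ∀ μ : Measure ℝ, IsSpectralMeasure H u μ →
    (μ.restrict B) ⟂ₘ volume

/-- Let `d ≥ 1` and let `ν` be a law with bounded support which is not a point mass (for Q1, the fair
law on `{-1, 1}`).
1. There is a Borel set `S` such that for every nonzero `u` in `ℓ²(ℤ^d)`, for almost every iid potential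
   `ω` with law `ν`, there is exactly one bounded operator `H = Δ_ω`, the spectral measures of all
   vectors are singular on every Borel set which meets `S` in a null set, and the spectral measure
   of `u` is not singular on any Borel set which meets `S` in positive measure.
2. If for some `u ≠ 0` the spectral measure of `u` is singular on the Borel set `B` with positive
   probability, then almost surely the spectral measures of all vectors are singular on `B`. -/
theorem result (d : ℕ) (hd : 1 ≤ d) (ν : Measure ℝ) [IsProbabilityMeasure ν]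
    (hb : ∃ K : ℝ, ∀ᵐ v ∂ν, |v| ≤ K) (hν : ∀ r : ℝ, ν {r} ≠ 1) :
    (∃ S : Set ℝ, MeasurableSet S ∧ ∀ u : L2 d, u ≠ 0 → ∀ᵐ ω ∂(iid d ν),
      (∃! H : Op (L2 d), IsAnderson ω H) ∧
        ∀ H : Op (L2 d), IsAnderson ω H → SingularOff H S ∧ SeesAll H S u) ∧
    ∀ B : Set ℝ, MeasurableSet B → ∀ u : L2 d, u ≠ 0 →
      (¬ ∀ᵐ ω ∂(iid d ν), ¬ SingularOn ω B u) →
        ∀ᵐ ω ∂(iid d ν), ∀ φ : L2 d, SingularOn ω B φ := by
  obtain ⟨S, hS, hmain⟩ := TH980.IM.final2 (d := d) hd ν hb hν
  have h : ∀ u : L2 d, u ≠ 0 → ∀ᵐ ω ∂(iid d ν),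
      (∃! H : Op (L2 d), IsAnderson ω H) ∧
        ∀ H : Op (L2 d), IsAnderson ω H → SingularOff H S ∧ SeesAll H S u := by
    intro u hu
    filter_upwards [hmain u hu] with ω ⟨H0, h1, h2, h3, h4⟩
    refine ⟨⟨H0, fun u => funext fun j => h1 u j, fun H hH => h2 H fun u j => congrFun (hH u) j⟩,
      fun H hH => ?_⟩
    have hHe : H = H0 := h2 H fun u j => congrFun (hH u) j
    subst hHe
    exact ⟨⟨fun φ => h3 φ, fun B hB hB0 φ μ hμ => (h4 B hB).1 hB0 φ μ hμ.1 hμ.2⟩,
      fun B hB hB0 μ hμ => (h4 B hB).2 hB0 μ hμ.1 hμ.2⟩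
  refine ⟨⟨S, hS, h⟩, fun B hB u hu hpos => ?_⟩
  by_cases hBS : volume (B ∩ S) = 0
  · filter_upwards [h u hu] with ω hω φ H hH μ hμ
    exact (hω.2 H hH).1.2 B hB hBS φ μ hμ
  · exfalso
    apply hpos
    filter_upwards [h u hu] with ω hω hsing
    obtain ⟨H, hH, _⟩ := hω.1
    obtain ⟨⟨hex, _⟩, hsee⟩ := hω.2 H hH
    obtain ⟨μ, hμ⟩ := hex u
    exact hsee B hB hBS μ hμ (hsing H hH μ hμ)

end Pool.Agent.Results.MP_d0f69c_mp.OneVector
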